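import Mathlib

/-!
There is a generalized Takagi function `f ∈ T_v` all of whose level sets have Hausdorff
dimension zero.

On a dyadic interval `[j/2^n, (j+1)/2^n)` the `n`-th partial sum of `f` is affine; let `s` be its
(integer) slope and `K/2^n` its value at the left end point.  The signs are chosen, as functions
of `n`, `s`, `K` and of the slope `p` of the parent interval, in such a way that for odd `n` the
map `j ↦ (s, K)` is injective.  Hence, for odd `n`, at most `(2n+1)(2n+3)` dyadic intervals of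
order `n` meet a given level set.
-/

set_option autoImplicit false

open scoped ENNReal NNReal Topology
open MeasureTheory MeasureTheory.Measure Filter Set

namespace Pool.Agent.Results.MP_141d59_an.ZeroDimLevels

/-- Distance to the nearest integer. -/
noncomputable def phi (x : ℝ) : ℝ := Metric.infDist x (Set.range ((↑) : ℤ → ℝ))

/-- Admissible sign functions: for each `n`, `ω n` takes values in `{-1, 1}` and is constant on
each interval `[j/2^n, (j+1)/2^n)`, `0 ≤ j < 2^n`. -/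
def Admissible (ω : ℕ → ℝ → ℝ) : Prop :=
  (∀ n x, ω n x = 1 ∨ ω n x = -1) ∧
  ∀ n j : ℕ, j < 2 ^ n → ∀ x ∈ Set.Ico ((j : ℝ) / 2 ^ n) ((j + 1 : ℝ) / 2 ^ n),
    ∀ y ∈ Set.Ico ((j : ℝ) / 2 ^ n) ((j + 1 : ℝ) / 2 ^ n), ω n x = ω n y

/-- The function `f(x) = ∑ ω_n(x) / 2^n φ(2^n x)`. -/
noncomputable def takagi (ω : ℕ → ℝ → ℝ) (x : ℝ) : ℝ :=
  ∑' n : ℕ, ω n x / 2 ^ n * phi (2 ^ n * x)

/-- The level set of `f` on `[0,1]` at height `y`. -/
def levelSet (ω : ℕ → ℝ → ℝ) (y : ℝ) : Set ℝ :=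
  {x : ℝ | x ∈ Set.Icc (0 : ℝ) 1 ∧ takagi ω x = y}

/-! ### The distance function -/

lemma phi_of_fract (k : ℤ) (u : ℝ) (h0 : 0 ≤ u) (h1 : u ≤ 1) :
    phi (k + u) = min u (1 - u) := by
  unfold phi
  apply le_antisymm
  · apply le_min
    · have := Metric.infDist_le_dist_of_mem (x := (k : ℝ) + u) (y := (k : ℝ))
        (s := Set.range ((↑) : ℤ → ℝ)) ⟨k, rfl⟩
      rw [Real.dist_eq] at this
      have h : |(k : ℝ) + u - k| = u := by rw [add_sub_cancel_left, abs_of_nonneg h0]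
      rw [h] at this
      exact this
    · have := Metric.infDist_le_dist_of_mem (x := (k : ℝ) + u) (y := ((k + 1 : ℤ) : ℝ))
        (s := Set.range ((↑) : ℤ → ℝ)) ⟨k + 1, rfl⟩
      rw [Real.dist_eq] at this
      have h : |(k : ℝ) + u - ((k + 1 : ℤ) : ℝ)| = 1 - u := by
        push_cast
        rw [show (k : ℝ) + u - (k + 1) = -(1 - u) by ring, abs_neg, abs_of_nonneg (by linarith)]
      rw [h] at this
      exact this
  · rw [Metric.le_infDist (Set.range_nonempty _)]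
    rintro y ⟨m, rfl⟩
    rw [Real.dist_eq]
    rcases le_or_gt m k with h | h
    · have h' : (m : ℝ) ≤ k := by exact_mod_cast h
      refine (min_le_left _ _).trans ?_
      rw [abs_of_nonneg (by linarith)]
      linarith
    · have h' : (k : ℝ) + 1 ≤ m := by exact_mod_cast h
      refine (min_le_right _ _).trans ?_
      rw [abs_of_nonpos (by linarith)]
      linarith

lemma phi_nonneg (x : ℝ) : 0 ≤ phi x := Metric.infDist_nonneg

lemma phi_le_half (x : ℝ) : phi x ≤ 1 / 2 := by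
  have h := phi_of_fract ⌊x⌋ (Int.fract x) (Int.fract_nonneg x) (Int.fract_lt_one x).le
  rw [Int.floor_add_fract] at h
  rw [h]
  rcases le_total (Int.fract x) (1 / 2) with h' | h'
  · exact (min_le_left _ _).trans h'
  · exact (min_le_right _ _).trans (by linarith)

/-! ### The signs -/

/-- The sign used on a dyadic interval of order `n` where the partial sum has slope `s` and left
value `K / 2^n`, the slope of the parent interval being `p`. -/
def sg (n : ℕ) (s K p : ℤ) : ℤ :=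
  if n % 2 = 1 then (if (s + 4 * K) % 8 = 1 ∨ (s + 4 * K) % 8 = 3 then 1 else -1)
  else if (s + 2 * K) % 8 = 2 then -1
  else if (s + 2 * K) % 8 = 6 then 1
  else if p % 4 = 1 then 1 else -1

/-- The data `(s, K, p)` of the dyadic interval `[j/2^n, (j+1)/2^n)`. -/
def st : ℕ → ℕ → ℤ × ℤ × ℤ
  | 0, _ => (0, 0, 1)
  | n + 1, j =>
    if j % 2 = 0 then
      ((st n (j / 2)).1 + sg n (st n (j / 2)).1 (st n (j / 2)).2.1 (st n (j / 2)).2.2,
        2 * (st n (j / 2)).2.1, (st n (j / 2)).1)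
    else
      ((st n (j / 2)).1 - sg n (st n (j / 2)).1 (st n (j / 2)).2.1 (st n (j / 2)).2.2,
        2 * (st n (j / 2)).2.1 + (st n (j / 2)).1
          + sg n (st n (j / 2)).1 (st n (j / 2)).2.1 (st n (j / 2)).2.2, (st n (j / 2)).1)

/-- slope -/
def S (n j : ℕ) : ℤ := (st n j).1
/-- left value -/
def K (n j : ℕ) : ℤ := (st n j).2.1
/-- slope of the parent -/
def P (n j : ℕ) : ℤ := (st n j).2.2
/-- the sign -/
def W (n j : ℕ) : ℤ := sg n (S n j) (K n j) (P n j)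

lemma sg_eq (n : ℕ) (s K p : ℤ) : sg n s K p = 1 ∨ sg n s K p = -1 := by
  unfold sg
  split_ifs <;> simp

lemma W_eq (n j : ℕ) : W n j = 1 ∨ W n j = -1 := sg_eq _ _ _ _

lemma S_even (n j : ℕ) : S (n + 1) (2 * j) = S n j + W n j := by
  simp [S, W, K, P, st]
lemma K_even (n j : ℕ) : K (n + 1) (2 * j) = 2 * K n j := by
  simp [K, st]
lemma P_even (n j : ℕ) : P (n + 1) (2 * j) = S n j := by
  simp [S, P, st]

lemma half_odd (j : ℕ) : (2 * j + 1) / 2 = j := by omega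
lemma mod_odd (j : ℕ) : (2 * j + 1) % 2 = 1 := by omega

lemma S_odd (n j : ℕ) : S (n + 1) (2 * j + 1) = S n j - W n j := by
  simp [S, W, K, P, st, half_odd, mod_odd]
lemma K_odd (n j : ℕ) : K (n + 1) (2 * j + 1) = 2 * K n j + S n j + W n j := by
  simp [S, W, K, P, st, half_odd, mod_odd]
lemma P_odd (n j : ℕ) : P (n + 1) (2 * j + 1) = S n j := by
  simp [S, P, st, half_odd, mod_odd]

lemma S_bound (n j : ℕ) : |S n j| ≤ n := by
  induction n generalizing j with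
  | zero => simp [S, st]
  | succ n ih =>
    have h := ih (j / 2)
    have hw := W_eq n (j / 2)
    rcases Nat.even_or_odd' j with ⟨i, rfl | rfl⟩
    · rw [S_even]
      have : 2 * i / 2 = i := by omega
      rw [this] at h hw
      rw [abs_le] at *
      push_cast
      omega
    · rw [S_odd]
      have : (2 * i + 1) / 2 = i := by omega
      rw [this] at h hw
      rw [abs_le] at *
      push_cast
      omega

/-! ### Injectivity at odd orders -/

/-- The two-step transition at odd orders, in terms of `σ = (s + 4K) mod 8` and of the position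
`r ∈ {0,1,2,3}` of the descendant. -/
inductive Step (s K : ℤ) : ℕ → ℤ → ℤ → Prop
  | c0 : Step s K 0 s (4 * K)
  | c1a : (s + 4 * K) % 8 = 1 → Step s K 1 (s + 2) (4 * K + s)
  | c1b : (s + 4 * K) % 8 = 3 → Step s K 1 (s + 2) (4 * K + s)
  | c1c : (s + 4 * K) % 8 = 5 → Step s K 1 (s - 2) (4 * K + s)
  | c1d : (s + 4 * K) % 8 = 7 → Step s K 1 (s - 2) (4 * K + s)
  | c2a : (s + 4 * K) % 8 = 1 → Step s K 2 s (4 * K + 2 * s + 2)
  | c2b : (s + 4 * K) % 8 = 3 → Step s K 2 (s - 2) (4 * K + 2 * s + 2)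
  | c2c : (s + 4 * K) % 8 = 5 → Step s K 2 (s + 2) (4 * K + 2 * s - 2)
  | c2d : (s + 4 * K) % 8 = 7 → Step s K 2 s (4 * K + 2 * s - 2)
  | c3a : (s + 4 * K) % 8 = 1 → Step s K 3 (s - 2) (4 * K + 3 * s + 2)
  | c3b : (s + 4 * K) % 8 = 3 → Step s K 3 s (4 * K + 3 * s)
  | c3c : (s + 4 * K) % 8 = 5 → Step s K 3 s (4 * K + 3 * s)
  | c3d : (s + 4 * K) % 8 = 7 → Step s K 3 (s + 2) (4 * K + 3 * s - 2)

/-- The transition is injective on the states satisfying the parity constraints. -/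
lemma step_inj {s K s' K' a b : ℤ} {r r' : ℕ} (h : Step s K r a b) (h' : Step s' K' r' a b)
    (hs : s % 2 = 1) (hs' : s' % 2 = 1) (hK : K % 4 = 0 ∨ (K + s) % 4 = 0)
    (hK' : K' % 4 = 0 ∨ (K' + s') % 4 = 0) : s = s' ∧ K = K' ∧ r = r' := by
  obtain ⟨a', ha⟩ : ∃ x, x = a := ⟨a, rfl⟩
  obtain ⟨b', hb⟩ : ∃ x, x = b := ⟨b, rfl⟩
  rw [← ha, ← hb] at h
  cases h <;> cases h' <;> omega

lemma sg_odd {n : ℕ} (hn : n % 2 = 1) (s K p : ℤ) :
    ((s + 4 * K) % 8 = 1 ∨ (s + 4 * K) % 8 = 3) ∧ sg n s K p = 1 ∨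
    ¬ ((s + 4 * K) % 8 = 1 ∨ (s + 4 * K) % 8 = 3) ∧ sg n s K p = -1 := by
  unfold sg
  rw [if_pos hn]
  by_cases h : (s + 4 * K) % 8 = 1 ∨ (s + 4 * K) % 8 = 3
  · left; exact ⟨h, if_pos h⟩
  · right; exact ⟨h, if_neg h⟩

lemma sg_even {n : ℕ} (hn : n % 2 = 0) (s K p : ℤ) :
    ((s + 2 * K) % 8 = 2 ∧ sg n s K p = -1) ∨ ((s + 2 * K) % 8 = 6 ∧ sg n s K p = 1) ∨
    ((s + 2 * K) % 8 ≠ 2 ∧ (s + 2 * K) % 8 ≠ 6 ∧ p % 4 = 1 ∧ sg n s K p = 1) ∨
    ((s + 2 * K) % 8 ≠ 2 ∧ (s + 2 * K) % 8 ≠ 6 ∧ p % 4 ≠ 1 ∧ sg n s K p = -1) := by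
  unfold sg
  rw [if_neg (by omega)]
  by_cases h : (s + 2 * K) % 8 = 2
  · left; exact ⟨h, if_pos h⟩
  · rw [if_neg h]
    by_cases h2 : (s + 2 * K) % 8 = 6
    · right; left; exact ⟨h2, if_pos h2⟩
    · rw [if_neg h2]
      by_cases h3 : p % 4 = 1
      · right; right; left; exact ⟨h, h2, h3, if_pos h3⟩
      · right; right; right; exact ⟨h, h2, h3, if_neg h3⟩

/-- The three signs used in a double step. -/
lemma signs {n : ℕ} (hn : n % 2 = 1) (q : ℕ) (hs : S n q % 2 = 1) :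
    ((S n q + 4 * K n q) % 8 = 1 ∧ W n q = 1 ∧ W (n + 1) (2 * q) = -1 ∧
      W (n + 1) (2 * q + 1) = 1) ∨
    ((S n q + 4 * K n q) % 8 = 3 ∧ W n q = 1 ∧ W (n + 1) (2 * q) = -1 ∧
      W (n + 1) (2 * q + 1) = -1) ∨
    ((S n q + 4 * K n q) % 8 = 5 ∧ W n q = -1 ∧ W (n + 1) (2 * q) = 1 ∧
      W (n + 1) (2 * q + 1) = 1) ∨
    ((S n q + 4 * K n q) % 8 = 7 ∧ W n q = -1 ∧ W (n + 1) (2 * q) = 1 ∧
      W (n + 1) (2 * q + 1) = -1) := by
  have hn2 : (n + 1) % 2 = 0 := by omega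
  have hw := sg_odd hn (S n q) (K n q) (P n q)
  change _ ∧ W n q = 1 ∨ _ ∧ W n q = -1 at hw
  have hwe := sg_even hn2 (S (n + 1) (2 * q)) (K (n + 1) (2 * q)) (P (n + 1) (2 * q))
  have hwo := sg_even hn2 (S (n + 1) (2 * q + 1)) (K (n + 1) (2 * q + 1)) (P (n + 1) (2 * q + 1))
  change (_ ∧ W (n + 1) (2 * q) = -1) ∨ (_ ∧ W (n + 1) (2 * q) = 1) ∨
    (_ ∧ _ ∧ _ ∧ W (n + 1) (2 * q) = 1) ∨ (_ ∧ _ ∧ _ ∧ W (n + 1) (2 * q) = -1) at hwe
  change (_ ∧ W (n + 1) (2 * q + 1) = -1) ∨ (_ ∧ W (n + 1) (2 * q + 1) = 1) ∨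
    (_ ∧ _ ∧ _ ∧ W (n + 1) (2 * q + 1) = 1) ∨ (_ ∧ _ ∧ _ ∧ W (n + 1) (2 * q + 1) = -1) at hwo
  rw [S_even, K_even, P_even] at hwe
  rw [S_odd, K_odd, P_odd] at hwo
  generalize S n q = s at *
  generalize K n q = k at *
  generalize W n q = w at *
  generalize W (n + 1) (2 * q) = w0 at *
  generalize W (n + 1) (2 * q + 1) = w1 at *
  have hσ : (s + 4 * k) % 8 = 1 ∨ (s + 4 * k) % 8 = 3 ∨ (s + 4 * k) % 8 = 5 ∨
      (s + 4 * k) % 8 = 7 := by omega
  rcases hσ with hσ | hσ | hσ | hσ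
  · have h1 : w = 1 := by omega
    subst h1
    have h2 : w0 = -1 := by omega
    have h3 : w1 = 1 := by omega
    left; exact ⟨hσ, rfl, h2, h3⟩
  · have h1 : w = 1 := by omega
    subst h1
    have h2 : w0 = -1 := by omega
    have h3 : w1 = -1 := by omega
    right; left; exact ⟨hσ, rfl, h2, h3⟩
  · have h1 : w = -1 := by omega
    subst h1
    have h2 : w0 = 1 := by omega
    have h3 : w1 = 1 := by omega
    right; right; left; exact ⟨hσ, rfl, h2, h3⟩
  · have h1 : w = -1 := by omega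
    subst h1
    have h2 : w0 = 1 := by omega
    have h3 : w1 = -1 := by omega
    right; right; right; exact ⟨hσ, rfl, h2, h3⟩

lemma two_step (n q : ℕ) :
    S (n + 2) (4 * q) = S n q + W n q + W (n + 1) (2 * q) ∧
    K (n + 2) (4 * q) = 4 * K n q ∧
    S (n + 2) (4 * q + 1) = S n q + W n q - W (n + 1) (2 * q) ∧
    K (n + 2) (4 * q + 1) = 4 * K n q + S n q + W n q + W (n + 1) (2 * q) ∧
    S (n + 2) (4 * q + 2) = S n q - W n q + W (n + 1) (2 * q + 1) ∧
    K (n + 2) (4 * q + 2) = 4 * K n q + 2 * S n q + 2 * W n q ∧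
    S (n + 2) (4 * q + 3) = S n q - W n q - W (n + 1) (2 * q + 1) ∧
    K (n + 2) (4 * q + 3) = 4 * K n q + 3 * S n q + W n q + W (n + 1) (2 * q + 1) := by
  have e0 := S_even n q
  have e1 := K_even n q
  have o0 := S_odd n q
  have o1 := K_odd n q
  have a0 := S_even (n + 1) (2 * q)
  have b0 := K_even (n + 1) (2 * q)
  have a1 := S_odd (n + 1) (2 * q)
  have b1 := K_odd (n + 1) (2 * q)
  have a2 := S_even (n + 1) (2 * q + 1)
  have b2 := K_even (n + 1) (2 * q + 1)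
  have a3 := S_odd (n + 1) (2 * q + 1)
  have b3 := K_odd (n + 1) (2 * q + 1)
  have i0 : 2 * (2 * q) = 4 * q := by ring
  have i1 : 2 * (2 * q + 1) = 4 * q + 2 := by ring
  rw [i0] at a0 b0 a1 b1
  rw [i1] at a2 b2 a3 b3
  have i2 : 4 * q + 2 + 1 = 4 * q + 3 := rfl
  rw [i2] at a3 b3
  refine ⟨?_, ?_, ?_, ?_, ?_, ?_, ?_, ?_⟩
  · rw [a0, e0]
  · rw [b0, e1]; ring
  · rw [a1, e0]
  · rw [b1, e1, e0]; ring
  · rw [a2, o0]
  · rw [b2, o1]; ring
  · rw [a3, o0]
  · rw [b3, o1, o0]; ring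

lemma step_st {n : ℕ} (hn : n % 2 = 1) (q r : ℕ) (hr : r < 4) (hs : S n q % 2 = 1) :
    Step (S n q) (K n q) r (S (n + 2) (4 * q + r)) (K (n + 2) (4 * q + r)) := by
  have h := two_step n q
  have hsg := signs hn q hs
  generalize S n q = s at *
  generalize K n q = k at *
  generalize W n q = w at *
  generalize W (n + 1) (2 * q) = w0 at *
  generalize W (n + 1) (2 * q + 1) = w1 at *
  obtain ⟨a0, b0, a1, b1, a2, b2, a3, b3⟩ := h
  have hr' : r = 0 ∨ r = 1 ∨ r = 2 ∨ r = 3 := by omega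
  rcases hr' with rfl | rfl | rfl | rfl
  · change Step s k 0 (S (n + 2) (4 * q)) (K (n + 2) (4 * q))
    rw [a0, b0]
    have : s + w + w0 = s := by
      rcases hsg with ⟨-, rfl, rfl, -⟩ | ⟨-, rfl, rfl, -⟩ | ⟨-, rfl, rfl, -⟩ | ⟨-, rfl, rfl, -⟩ <;>
        ring
    rw [this]
    exact Step.c0
  · rw [a1, b1]
    rcases hsg with ⟨h, rfl, rfl, -⟩ | ⟨h, rfl, rfl, -⟩ | ⟨h, rfl, rfl, -⟩ | ⟨h, rfl, rfl, -⟩
    · convert Step.c1a h using 1 <;> ring
    · convert Step.c1b h using 1 <;> ring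
    · convert Step.c1c h using 1 <;> ring
    · convert Step.c1d h using 1 <;> ring
  · rw [a2, b2]
    rcases hsg with ⟨h, rfl, -, rfl⟩ | ⟨h, rfl, -, rfl⟩ | ⟨h, rfl, -, rfl⟩ | ⟨h, rfl, -, rfl⟩
    · convert Step.c2a h using 1 <;> ring
    · convert Step.c2b h using 1 <;> ring
    · convert Step.c2c h using 1 <;> ring
    · convert Step.c2d h using 1 <;> ring
  · rw [a3, b3]
    rcases hsg with ⟨h, rfl, -, rfl⟩ | ⟨h, rfl, -, rfl⟩ | ⟨h, rfl, -, rfl⟩ | ⟨h, rfl, -, rfl⟩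
    · convert Step.c3a h using 1 <;> ring
    · convert Step.c3b h using 1 <;> ring
    · convert Step.c3c h using 1 <;> ring
    · convert Step.c3d h using 1 <;> ring

/-- The parity constraints and the injectivity, at odd orders. -/
lemma main_induction (m : ℕ) :
    (∀ j, j < 2 ^ (2 * m + 1) → S (2 * m + 1) j % 2 = 1 ∧
      (K (2 * m + 1) j % 4 = 0 ∨ (K (2 * m + 1) j + S (2 * m + 1) j) % 4 = 0)) ∧
    (∀ i j, i < 2 ^ (2 * m + 1) → j < 2 ^ (2 * m + 1) → S (2 * m + 1) i = S (2 * m + 1) j →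
      K (2 * m + 1) i = K (2 * m + 1) j → i = j) := by
  induction m with
  | zero =>
    have s0 : S (2 * 0 + 1) 0 = 1 := by decide
    have k0 : K (2 * 0 + 1) 0 = 0 := by decide
    have s1 : S (2 * 0 + 1) 1 = -1 := by decide
    have k1 : K (2 * 0 + 1) 1 = 1 := by decide
    constructor
    · intro j hj
      have : j = 0 ∨ j = 1 := by norm_num at hj; omega
      rcases this with rfl | rfl
      · rw [s0, k0]; decide
      · rw [s1, k1]; decide
    · intro i j hi hj h1 _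
      have hi' : i = 0 ∨ i = 1 := by norm_num at hi; omega
      have hj' : j = 0 ∨ j = 1 := by norm_num at hj; omega
      rcases hi' with rfl | rfl <;> rcases hj' with rfl | rfl
      · rfl
      · rw [s0, s1] at h1; norm_num at h1
      · rw [s0, s1] at h1; norm_num at h1
      · rfl
  | succ m ih =>
    obtain ⟨ih1, ih2⟩ := ih
    have hn : (2 * m + 1) % 2 = 1 := by omega
    have hidx : 2 * (m + 1) + 1 = (2 * m + 1) + 2 := by ring
    have hpow : 2 ^ (2 * (m + 1) + 1) = 4 * 2 ^ (2 * m + 1) := by rw [hidx, pow_add]; ring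
    rw [hpow, hidx]
    have hdecomp : ∀ j, j < 4 * 2 ^ (2 * m + 1) → j / 4 < 2 ^ (2 * m + 1) ∧ j % 4 < 4 ∧
        j = 4 * (j / 4) + j % 4 := by
      intro j hj
      refine ⟨by omega, by omega, by omega⟩
    constructor
    · intro j hj
      obtain ⟨hq, hr, hj'⟩ := hdecomp j hj
      have hstep := step_st hn (j / 4) (j % 4) hr (ih1 _ hq).1
      rw [← hj'] at hstep
      have hg := ih1 _ hq
      generalize S (2 * m + 1) (j / 4) = s at *
      generalize K (2 * m + 1) (j / 4) = k at *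
      generalize S (2 * m + 1 + 2) j = a at *
      generalize K (2 * m + 1 + 2) j = b at *
      clear ih1 ih2 hdecomp hj' hj hpow hidx
      generalize j % 4 = r at *
      cases hstep <;> omega
    · intro i j hi hj h1 h2
      obtain ⟨hqi, hri, hi'⟩ := hdecomp i hi
      obtain ⟨hqj, hrj, hj'⟩ := hdecomp j hj
      have hsi := step_st hn (i / 4) (i % 4) hri (ih1 _ hqi).1
      have hsj := step_st hn (j / 4) (j % 4) hrj (ih1 _ hqj).1
      rw [← hi', h1, h2] at hsi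
      rw [← hj'] at hsj
      obtain ⟨e1, e2, e3⟩ := step_inj hsi hsj (ih1 _ hqi).1 (ih1 _ hqj).1 (ih1 _ hqi).2
        (ih1 _ hqj).2
      have := ih2 _ _ hqi hqj e1 e2
      omega

/-! ### The function -/

/-- The sign functions. -/
noncomputable def om (n : ℕ) (x : ℝ) : ℝ := (W n ⌊(2 : ℝ) ^ n * x⌋₊ : ℝ)

lemma om_eq (n : ℕ) (x : ℝ) : om n x = 1 ∨ om n x = -1 := by
  unfold om
  rcases W_eq n ⌊(2 : ℝ) ^ n * x⌋₊ with h | h <;> rw [h] <;> simp

lemma floor_of_mem {n j : ℕ} {x : ℝ} (hx : x ∈ Set.Ico ((j : ℝ) / 2 ^ n) ((j + 1 : ℝ) / 2 ^ n)) :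
    ⌊(2 : ℝ) ^ n * x⌋₊ = j := by
  have h2 : (0 : ℝ) < 2 ^ n := by positivity
  have h1 : (j : ℝ) ≤ 2 ^ n * x := by
    have := hx.1
    rw [div_le_iff₀ h2] at this
    linarith
  have h3 : 2 ^ n * x < j + 1 := by
    have := hx.2
    rw [lt_div_iff₀ h2] at this
    linarith
  rw [Nat.floor_eq_iff (by have : (0 : ℝ) ≤ j := Nat.cast_nonneg j
                           linarith)]
  exact ⟨h1, h3⟩

lemma om_admissible : Admissible om := by
  refine ⟨om_eq, ?_⟩
  intro n j _ x hx y hy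
  unfold om
  rw [floor_of_mem hx, floor_of_mem hy]

lemma floor_double {n : ℕ} {x : ℝ} (hx : 0 ≤ x) :
    ((2 : ℝ) ^ n * x - ⌊(2 : ℝ) ^ n * x⌋₊ < 1 / 2 ∧
      ⌊(2 : ℝ) ^ (n + 1) * x⌋₊ = 2 * ⌊(2 : ℝ) ^ n * x⌋₊) ∨
    (1 / 2 ≤ (2 : ℝ) ^ n * x - ⌊(2 : ℝ) ^ n * x⌋₊ ∧
      ⌊(2 : ℝ) ^ (n + 1) * x⌋₊ = 2 * ⌊(2 : ℝ) ^ n * x⌋₊ + 1) := by
  have h0 : 0 ≤ (2 : ℝ) ^ n * x := by positivity
  have h1 := Nat.floor_le h0
  have h2 := Nat.lt_floor_add_one ((2 : ℝ) ^ n * x)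
  have h3 : 0 ≤ (2 : ℝ) ^ (n + 1) * x := by positivity
  have h4 : (2 : ℝ) ^ (n + 1) * x = 2 * ((2 : ℝ) ^ n * x) := by ring
  rcases lt_or_ge ((2 : ℝ) ^ n * x - ⌊(2 : ℝ) ^ n * x⌋₊) (1 / 2) with h | h
  · left
    refine ⟨h, ?_⟩
    rw [Nat.floor_eq_iff h3, h4]
    push_cast
    constructor <;> linarith
  · right
    refine ⟨h, ?_⟩
    rw [Nat.floor_eq_iff h3, h4]
    push_cast
    constructor <;> linarith

lemma partial_sum {x : ℝ} (hx : 0 ≤ x) (n : ℕ) :
    ∑ i ∈ Finset.range n, om i x / 2 ^ i * phi (2 ^ i * x) =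
      ((K n ⌊(2 : ℝ) ^ n * x⌋₊ : ℝ) +
        (S n ⌊(2 : ℝ) ^ n * x⌋₊ : ℝ) * ((2 : ℝ) ^ n * x - ⌊(2 : ℝ) ^ n * x⌋₊)) / 2 ^ n := by
  induction n with
  | zero =>
    simp [K, S, st]
  | succ n ih =>
    rw [Finset.sum_range_succ, ih]
    have h0 : 0 ≤ (2 : ℝ) ^ n * x := by positivity
    have h1 := Nat.floor_le h0
    have h2 := Nat.lt_floor_add_one ((2 : ℝ) ^ n * x)
    obtain ⟨j, hj⟩ : ∃ j, j = ⌊(2 : ℝ) ^ n * x⌋₊ := ⟨_, rfl⟩
    obtain ⟨u, hu⟩ : ∃ u, u = (2 : ℝ) ^ n * x - j := ⟨_, rfl⟩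
    have hphi : phi (2 ^ n * x) = min u (1 - u) := by
      have : (2 : ℝ) ^ n * x = ((j : ℤ) : ℝ) + u := by rw [hu]; push_cast; ring
      rw [this]
      apply phi_of_fract
      · rw [hu, hj]; linarith
      · rw [hu, hj]; linarith
    have hom : om n x = (W n j : ℝ) := by rw [om, hj]
    have h4 : (2 : ℝ) ^ (n + 1) * x = 2 * (j + u) := by rw [hu]; ring
    have hpos : (2 : ℝ) ^ n ≠ 0 := by positivity
    rcases floor_double (n := n) hx with ⟨ha, hb⟩ | ⟨ha, hb⟩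
    · rw [hb, ← hj, hphi, hom, h4, ← hu, S_even, K_even]
      rw [← hj, ← hu] at ha
      rw [min_eq_left (by linarith)]
      push_cast
      rw [pow_succ]
      field_simp
      ring
    · rw [hb, ← hj, hphi, hom, h4, ← hu, S_odd, K_odd]
      rw [← hj, ← hu] at ha
      rw [min_eq_right (by linarith)]
      push_cast
      rw [pow_succ]
      field_simp
      ring

lemma term_bound (n : ℕ) (x : ℝ) :
    ‖om n x / 2 ^ n * phi (2 ^ n * x)‖ ≤ 1 / 2 * (1 / 2) ^ n := by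
  rw [norm_mul, norm_div]
  have h1 : ‖om n x‖ = 1 := by
    rcases om_eq n x with h | h <;> rw [h] <;> simp
  rw [h1, Real.norm_eq_abs, Real.norm_eq_abs, abs_of_nonneg (phi_nonneg _),
    abs_of_pos (by positivity : (0 : ℝ) < 2 ^ n), one_div, one_div, inv_pow]
  have := phi_le_half (2 ^ n * x)
  have h2 : (0 : ℝ) < (2 ^ n)⁻¹ := by positivity
  nlinarith

lemma summable_terms (x : ℝ) : Summable fun n : ℕ => om n x / 2 ^ n * phi (2 ^ n * x) := by
  refine Summable.of_norm_bounded (g := fun n : ℕ => 1 / 2 * (1 / 2 : ℝ) ^ n) ?_ ?_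
  · exact (summable_geometric_of_lt_one (by norm_num) (by norm_num)).mul_left _
  · exact fun n => term_bound n x

lemma tail_bound (n : ℕ) (x : ℝ) :
    |takagi om x - ∑ i ∈ Finset.range n, om i x / 2 ^ i * phi (2 ^ i * x)| ≤ 1 / 2 ^ n := by
  have h := (summable_terms x).sum_add_tsum_nat_add n
  have h' : takagi om x - ∑ i ∈ Finset.range n, om i x / 2 ^ i * phi (2 ^ i * x)
      = ∑' i : ℕ, om (i + n) x / 2 ^ (i + n) * phi (2 ^ (i + n) * x) := by
    unfold takagi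
    rw [← h]; ring
  rw [h', ← Real.norm_eq_abs]
  have hs : Summable fun i : ℕ => 1 / 2 * (1 / 2 : ℝ) ^ (i + n) := by
    have := ((summable_geometric_of_lt_one (r := (1 / 2 : ℝ)) (by norm_num)
      (by norm_num)).mul_left (1 / 2)).mul_right ((1 / 2 : ℝ) ^ n)
    refine this.congr fun i => ?_
    rw [pow_add]; ring
  refine (tsum_of_norm_bounded (hs.hasSum) fun i => term_bound (i + n) x).trans ?_
  have h2 : ∑' i : ℕ, 1 / 2 * (1 / 2 : ℝ) ^ (i + n) = 1 / 2 ^ n := by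
    have : ∀ i : ℕ, 1 / 2 * (1 / 2 : ℝ) ^ (i + n) = (1 / 2 * (1 / 2 : ℝ) ^ n) * (1 / 2) ^ i := by
      intro i; rw [pow_add]; ring
    rw [tsum_congr this, tsum_mul_left, tsum_geometric_of_lt_one (by norm_num) (by norm_num)]
    rw [one_div_pow]; ring
  exact h2.le

/-! ### Counting and covering -/

/-- Indices of the dyadic intervals of order `n` whose left value is close to `y`. -/
noncomputable def near (n : ℕ) (y : ℝ) : Finset ℕ :=
  (Finset.range (2 ^ n)).filter fun j => |(K n j : ℝ) - 2 ^ n * y| ≤ n + 1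

lemma near_card (m : ℕ) (y : ℝ) :
    ((near (2 * m + 1) y).card : ℝ) ≤ (2 * (2 * m + 1 : ℕ) + 1) * (2 * (2 * m + 1 : ℕ) + 4) := by
  obtain ⟨n, hn⟩ : ∃ n, n = 2 * m + 1 := ⟨_, rfl⟩
  obtain ⟨z, hz⟩ : ∃ z : ℤ, z = ⌊(2 : ℝ) ^ n * y⌋ := ⟨_, rfl⟩
  have hmaps : ∀ j ∈ near n y, (S n j, K n j) ∈
      Finset.Icc (-(n : ℤ)) n ×ˢ Finset.Icc (z - n - 1) (z + n + 2) := by
    intro j hj
    rw [near, Finset.mem_filter] at hj
    have h1 := S_bound n j
    rw [abs_le] at h1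
    have h2 := hj.2
    rw [abs_le] at h2
    have h3 := Int.floor_le ((2 : ℝ) ^ n * y)
    have h4 := Int.lt_floor_add_one ((2 : ℝ) ^ n * y)
    rw [← hz] at h3 h4
    rw [Finset.mem_product, Finset.mem_Icc, Finset.mem_Icc]
    refine ⟨⟨h1.1, h1.2⟩, ?_, ?_⟩
    · have : (z - n - 1 : ℝ) ≤ K n j := by linarith
      exact_mod_cast this
    · have : (K n j : ℝ) < z + n + 2 := by linarith
      have h5 : K n j < z + n + 2 := by exact_mod_cast this
      exact h5.le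
  have hinj : ∀ i ∈ near n y, ∀ j ∈ near n y, (S n i, K n i) = (S n j, K n j) → i = j := by
    intro i hi j hj h
    rw [near, Finset.mem_filter, Finset.mem_range] at hi hj
    rw [Prod.mk.injEq] at h
    subst hn
    exact (main_induction m).2 i j hi.1 hj.1 h.1 h.2
  have hcard := Finset.card_le_card_of_injOn (fun j => (S n j, K n j)) hmaps
    (fun i hi j hj h => hinj i hi j hj h)
  rw [Finset.card_product, Int.card_Icc, Int.card_Icc] at hcard
  rw [← hn]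
  have e1 : ((n : ℤ) + 1 - -(n : ℤ)).toNat = 2 * n + 1 := by omega
  have e2 : (z + n + 2 + 1 - (z - n - 1)).toNat = 2 * n + 4 := by omega
  rw [e1, e2] at hcard
  exact_mod_cast hcard

lemma cover (n : ℕ) (y : ℝ) :
    levelSet om y ∩ Set.Ico 0 1 ⊆
      ⋃ j : near n y, Set.Icc (((j : ℕ) : ℝ) / 2 ^ n) ((((j : ℕ) : ℝ) + 1) / 2 ^ n) := by
  rintro x ⟨⟨-, hxy⟩, hx0, hx1⟩
  obtain ⟨j, hj⟩ : ∃ j, j = ⌊(2 : ℝ) ^ n * x⌋₊ := ⟨_, rfl⟩
  have hpos : (0 : ℝ) < 2 ^ n := by positivity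
  have h0 : 0 ≤ (2 : ℝ) ^ n * x := by positivity
  have h1 := Nat.floor_le h0
  have h2 := Nat.lt_floor_add_one ((2 : ℝ) ^ n * x)
  rw [← hj] at h1 h2
  have hjlt : j < 2 ^ n := by
    have : (j : ℝ) < 2 ^ n := by nlinarith
    exact_mod_cast this
  have hps := partial_sum hx0 n
  have htb := tail_bound n x
  rw [hps, hxy, ← hj] at htb
  have hS := S_bound n j
  have hS' : |(S n j : ℝ)| ≤ n := by
    have : ((|S n j| : ℤ) : ℝ) ≤ ((n : ℤ) : ℝ) := by exact_mod_cast hS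
    rwa [Int.cast_abs, Int.cast_natCast] at this
  obtain ⟨u, hu⟩ : ∃ u, u = (2 : ℝ) ^ n * x - j := ⟨_, rfl⟩
  rw [← hu] at htb
  have hu0 : 0 ≤ u := by rw [hu]; linarith
  have hu1 : u ≤ 1 := by rw [hu]; linarith
  have hb : |2 ^ n * y - ((K n j : ℝ) + (S n j : ℝ) * u)| ≤ 1 := by
    have e : 2 ^ n * y - ((K n j : ℝ) + (S n j : ℝ) * u)
        = 2 ^ n * (y - ((K n j : ℝ) + (S n j : ℝ) * u) / 2 ^ n) := by
      field_simp
    rw [e, abs_mul, abs_of_pos hpos]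
    calc (2 : ℝ) ^ n * |y - ((K n j : ℝ) + (S n j : ℝ) * u) / 2 ^ n|
        ≤ 2 ^ n * (1 / 2 ^ n) := mul_le_mul_of_nonneg_left htb hpos.le
      _ = 1 := by field_simp
  have hSu : |(S n j : ℝ) * u| ≤ n := by
    rw [abs_mul, abs_of_nonneg hu0]
    calc |(S n j : ℝ)| * u ≤ |(S n j : ℝ)| * 1 := mul_le_mul_of_nonneg_left hu1 (abs_nonneg _)
      _ ≤ n := by rw [mul_one]; exact hS'
  have hmem : j ∈ near n y := by
    rw [near, Finset.mem_filter, Finset.mem_range]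
    refine ⟨hjlt, ?_⟩
    rw [abs_le] at *
    constructor <;> linarith [hb.1, hb.2, hSu.1, hSu.2]
  rw [Set.mem_iUnion]
  refine ⟨⟨j, hmem⟩, ?_, ?_⟩
  · rw [div_le_iff₀ hpos]; simpa [mul_comm] using h1
  · rw [le_div_iff₀ hpos]
    have : x * 2 ^ n = 2 ^ n * x := by ring
    rw [this]
    exact h2.le

lemma ediam_piece (n j : ℕ) :
    Metric.ediam (Set.Icc ((j : ℝ) / 2 ^ n) (((j : ℝ) + 1) / 2 ^ n)) = ENNReal.ofReal ((1 / 2) ^ n) := by
  rw [Real.ediam_Icc]
  congr 1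
  rw [one_div_pow]
  ring

lemma dimH_level (y : ℝ) : dimH (levelSet om y ∩ Set.Ico 0 1) = 0 := by
  have key : ∀ d : ℝ≥0, 0 < d → dimH (levelSet om y ∩ Set.Ico 0 1) ≤ d := by
    intro d hd
    apply dimH_le_of_hausdorffMeasure_ne_top
    have hd' : (0 : ℝ) < d := by exact_mod_cast hd
    have hle := hausdorffMeasure_le_liminf_sum (d : ℝ) (levelSet om y ∩ Set.Ico 0 1)
      (l := atTop) (fun m : ℕ => ENNReal.ofReal ((1 / 2) ^ (2 * m + 1)))
      (by
        rw [show (0 : ℝ≥0∞) = ENNReal.ofReal 0 by simp]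
        apply ENNReal.tendsto_ofReal
        have h1 : Tendsto (fun k : ℕ => (1 / 2 : ℝ) ^ k) atTop (𝓝 0) :=
          tendsto_pow_atTop_nhds_zero_of_lt_one (by norm_num) (by norm_num)
        refine h1.comp (tendsto_atTop_mono (fun m => ?_) tendsto_id)
        simp only [id]; omega)
      (fun m (j : near (2 * m + 1) y) =>
        Set.Icc (((j : ℕ) : ℝ) / 2 ^ (2 * m + 1)) ((((j : ℕ) : ℝ) + 1) / 2 ^ (2 * m + 1)))
      (Eventually.of_forall fun m j => (ediam_piece _ _).le)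
      (Eventually.of_forall fun m => cover _ y)
    refine ne_top_of_le_ne_top ?_ hle
    -- the sums tend to zero
    obtain ⟨r, hr⟩ : ∃ r : ℝ, r = (1 / 2 : ℝ) ^ (d : ℝ) := ⟨_, rfl⟩
    have hr0 : 0 < r := by rw [hr]; positivity
    have hr1 : r < 1 := by
      rw [hr]; exact Real.rpow_lt_one (by norm_num) (by norm_num) hd'
    have hterm : ∀ m : ℕ, (∑ j : near (2 * m + 1) y, Metric.ediam (Set.Icc
        (((j : ℕ) : ℝ) / 2 ^ (2 * m + 1)) ((((j : ℕ) : ℝ) + 1) / 2 ^ (2 * m + 1))) ^ (d : ℝ)) ≤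
        ENNReal.ofReal ((2 * (2 * m + 1 : ℕ) + 1) * (2 * (2 * m + 1 : ℕ) + 4)
          * r ^ (2 * m + 1)) := by
      intro m
      have h1 : ∀ j : near (2 * m + 1) y, Metric.ediam (Set.Icc
        (((j : ℕ) : ℝ) / 2 ^ (2 * m + 1)) ((((j : ℕ) : ℝ) + 1) / 2 ^ (2 * m + 1))) ^ (d : ℝ)
          = ENNReal.ofReal (r ^ (2 * m + 1)) := by
        intro j
        rw [ediam_piece, ENNReal.ofReal_rpow_of_nonneg (by positivity) hd'.le]
        congr 1
        rw [hr, ← Real.rpow_natCast, ← Real.rpow_natCast, ← Real.rpow_mul (by norm_num),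
          ← Real.rpow_mul (by norm_num), mul_comm]
      rw [Finset.sum_congr rfl fun j _ => h1 j, Finset.sum_const, Finset.card_univ,
        Fintype.card_coe, nsmul_eq_mul, ← ENNReal.ofReal_natCast,
        ← ENNReal.ofReal_mul (Nat.cast_nonneg _)]
      apply ENNReal.ofReal_le_ofReal
      exact mul_le_mul_of_nonneg_right (near_card m y) (by positivity)
    have hlim : Tendsto (fun m : ℕ => ENNReal.ofReal ((2 * (2 * m + 1 : ℕ) + 1)
        * (2 * (2 * m + 1 : ℕ) + 4) * r ^ (2 * m + 1))) atTop (𝓝 0) := by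
      rw [show (0 : ℝ≥0∞) = ENNReal.ofReal 0 by simp]
      apply ENNReal.tendsto_ofReal
      have h2 : Tendsto (fun k : ℕ => ((2 * (k : ℝ) + 1) * (2 * (k : ℝ) + 4)) * r ^ k) atTop
          (𝓝 0) := by
        have t0 : Tendsto (fun k : ℕ => (k : ℝ) ^ 0 * r ^ k) atTop (𝓝 0) :=
          tendsto_pow_const_mul_const_pow_of_abs_lt_one 0 (by rw [abs_of_pos hr0]; exact hr1)
        have t1 : Tendsto (fun k : ℕ => (k : ℝ) ^ 1 * r ^ k) atTop (𝓝 0) :=
          tendsto_pow_const_mul_const_pow_of_abs_lt_one 1 (by rw [abs_of_pos hr0]; exact hr1)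
        have t2 : Tendsto (fun k : ℕ => (k : ℝ) ^ 2 * r ^ k) atTop (𝓝 0) :=
          tendsto_pow_const_mul_const_pow_of_abs_lt_one 2 (by rw [abs_of_pos hr0]; exact hr1)
        have := ((t2.const_mul 4).add (t1.const_mul 10)).add (t0.const_mul 4)
        simp only [mul_zero, add_zero] at this
        refine this.congr fun k => ?_
        ring
      refine (h2.comp (tendsto_atTop_mono (f := fun m : ℕ => m) (g := fun m : ℕ => 2 * m + 1)
        (fun m => by omega) tendsto_id)).congr fun m => ?_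
      simp only [Function.comp]
    have hfin : liminf (fun m : ℕ => ∑ j : near (2 * m + 1) y, Metric.ediam (Set.Icc
        (((j : ℕ) : ℝ) / 2 ^ (2 * m + 1)) ((((j : ℕ) : ℝ) + 1) / 2 ^ (2 * m + 1))) ^ (d : ℝ))
          atTop ≤ 0 := by
      rw [← hlim.liminf_eq]
      exact liminf_le_liminf (Eventually.of_forall hterm)
    exact ne_top_of_le_ne_top ENNReal.zero_ne_top hfin
  apply le_antisymm _ zero_le
  refine ENNReal.le_of_forall_pos_le_add fun ε hε _ => ?_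
  rw [zero_add]
  exact key ε hε

/-- **Main theorem.** There are admissible sign functions for which every level set of the
corresponding generalized Takagi function has Hausdorff dimension zero. -/
theorem result : ∃ ω : ℕ → ℝ → ℝ, Admissible ω ∧ ∀ y : ℝ, dimH (levelSet ω y) = 0 := by
  refine ⟨om, om_admissible, fun y => ?_⟩
  have hsub : levelSet om y ⊆ (levelSet om y ∩ Set.Ico 0 1) ∪ {1} := by
    intro x hx
    rcases lt_or_eq_of_le hx.1.2 with h | h
    · left; exact ⟨hx, hx.1.1, h⟩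
    · right; exact h
  apply le_antisymm _ zero_le
  refine (dimH_mono hsub).trans ?_
  rw [dimH_union, dimH_level, dimH_singleton]
  simp

end Pool.Agent.Results.MP_141d59_an.ZeroDimLevels
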